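import Pool.Agent.H482R3.EB.Cen

set_option autoImplicit false

/-! Project CEN, task Z_INJ (helper946): the valuation is injective, the valuations are injective. -/

namespace Pool.Agent.H946R2.EB

open Pool.Agent.H482R3.EA (W inv ev PP xx evF cond1 cond2 cV cW LIdx Syl gOf iW iV letF valS
  Sys St Near InD Adm Act)
open Pool.Agent.H482R3.EB

theorem inj_ev_cons {S G : Type} [Group G] (f : S → G) (a : S × Bool) (u : W S) :
    ev f (a :: u) = (if a.2 then f a.1 else (f a.1)⁻¹) * ev f u := by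
  simp [ev]

section

variable {V Wt : Type} (c : V ⊕ Wt → V ⊕ Wt → ℕ) (h : SysOK c) (A : Act (sysB c h))

theorem inj_append (u u' : W (V ⊕ Wt)) (x : A.Ω × AR (cW c)) :
    runB c h A (u ++ u') x = runB c h A u' (runB c h A u x) := by
  unfold runB
  rw [List.foldl_append]

theorem inj_iW (g : W Wt) (ω : A.Ω) (g0 : AR (cW c)) :
    runB c h A (iW g) (ω, g0) = (ω, g0 * ev (gR (cW c)) g) := by
  induction g generalizing g0 with
  | nil => simp [runB, iW, ev]
  | cons a g ih =>
    have e1 : (iW (a :: g) : W (V ⊕ Wt)) = [(Sum.inr a.1, a.2)] ++ iW g := rfl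
    rw [e1, inj_append]
    have e2 : runB c h A [(Sum.inr a.1, a.2)] (ω, g0) =
        (ω, g0 * if a.2 then gR (cW c) a.1 else (gR (cW c) a.1)⁻¹) := rfl
    rw [e2, ih, inj_ev_cons, mul_assoc]

variable (φ : (l : LnB c) → LB c l →* AJ c) (ι : AR (cW c) →* AJ c)
  (hι : ∀ w, ι (gR (cW c) w) = gJ c (.inr w))
  (hφ : ∀ (g : AR (cW c)) (v : V), φ (Sum.inl g : LnB c) (gR (cV c) v : AR (cV c)) =
    ι g * gJ c (.inl v) * (ι g)⁻¹)
  (v : A.Ω → AJ c) (hv1 : v A.one = 1)
  (hv : ∀ ω (l : LnB c) (y : LB c l), v (A.act ω l y) = v ω * φ l y)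

include hι hφ hv in
theorem inj_step (x : A.Ω × AR (cW c)) (a : (V ⊕ Wt) × Bool) :
    v (stepB c h A x a).1 * ι (stepB c h A x a).2 =
      v x.1 * ι x.2 * (if a.2 then gJ c a.1 else (gJ c a.1)⁻¹) := by
  obtain ⟨ω, g⟩ := x
  obtain ⟨s | s, b⟩ := a
  · show v (A.act ω (Sum.inl g : LnB c)
      (if b then gR (cV c) s else (gR (cV c) s)⁻¹ : AR (cV c))) * ι g = _
    rw [hv]
    have e : φ (Sum.inl g : LnB c) (if b then gR (cV c) s else (gR (cV c) s)⁻¹ : AR (cV c)) =
        ι g * (if b then gJ c (.inl s) else (gJ c (.inl s))⁻¹) * (ι g)⁻¹ := by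
      cases b
      · simp only [Bool.false_eq_true, if_false]
        have e1 := map_inv (φ (Sum.inl g : LnB c)) (gR (cV c) s : AR (cV c))
        refine e1.trans ((congrArg (fun z : AJ c => z⁻¹) (hφ g s)).trans ?_)
        show (ι g * gJ c (.inl s) * (ι g)⁻¹)⁻¹ = ι g * (gJ c (.inl s))⁻¹ * (ι g)⁻¹
        group
      · simp only [if_true]
        exact hφ g s
    rw [e]
    show v ω * (ι g * (if b then gJ c (.inl s) else (gJ c (.inl s))⁻¹) * (ι g)⁻¹) * ι g =
      v ω * ι g * (if b then gJ c (.inl s) else (gJ c (.inl s))⁻¹)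
    group
  · show v ω * ι (g * if b then gR (cW c) s else (gR (cW c) s)⁻¹) =
      v ω * ι g * (if b then gJ c (.inr s) else (gJ c (.inr s))⁻¹)
    have e : ι (if b then gR (cW c) s else (gR (cW c) s)⁻¹) =
        (if b then gJ c (.inr s) else (gJ c (.inr s))⁻¹) := by
      cases b
      · simp only [Bool.false_eq_true, if_false]
        rw [map_inv, hι]
      · simp only [if_true]
        rw [hι]
    rw [map_mul, e, mul_assoc]

include hι hφ hv in
theorem inj_run (u : W (V ⊕ Wt)) (x : A.Ω × AR (cW c)) :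
    v (runB c h A u x).1 * ι (runB c h A u x).2 = v x.1 * ι x.2 * ev (gJ c) u := by
  induction u generalizing x with
  | nil =>
    show v x.1 * ι x.2 = v x.1 * ι x.2 * 1
    rw [mul_one]
  | cons a u ih =>
    have h1 := ih (stepB c h A x a)
    have h2 : runB c h A (a :: u) x = runB c h A u (stepB c h A x a) := rfl
    rw [h2]
    refine h1.trans ?_
    rw [inj_step c h A φ ι hι hφ v hv, inj_ev_cons, mul_assoc]

theorem inj_reach (h1 : S_SEM1B) (h2 : S_SEM2B) (hR : S_RUNB) (hC : Cross c) (ω : A.Ω) :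
    ∃ u : W (V ⊕ Wt), runB c h A u (A.one, 1) = (ω, 1) := by
  have hgen : ∀ ω : A.Ω, ∃ (u : W (V ⊕ Wt)) (s : Option (Syl V Wt)),
      runB c h A u (A.one, 1) = (ω, 1) ∧ A.st ω = stO c h s ∧ okO c s := by
    refine A.gen _ ?_ ?_
    · exact ⟨[], none, rfl, A.st_one, trivial⟩
    · intro ω l y hω hadm
      obtain ⟨u, s, k3, k4, k5⟩ := hω
      rw [k4] at hadm
      obtain ⟨a, ha, hact⟩ := h2 V Wt c hC h s l y k5 hadm
      obtain ⟨hok, hst⟩ := h1 V Wt c hC h A s a ω k5 ha k4
      have hrun := hR V Wt c hC h A a ω hok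
      refine ⟨u ++ valS c a, some a, ?_, ?_, hok⟩
      · rw [inj_append, k3, hrun]
        have e2 := hact A ω
        rw [e2]
      · have e2 := hact A ω
        rw [e2]
        exact hst
  obtain ⟨u, s, k, -, -⟩ := hgen ω
  exact ⟨u, k⟩

theorem inj_star2 (hA : S_ACTB) (hV : Pool.Agent.H482R3.EA.S_EV) (hC : Cross c) (u u' : W (V ⊕ Wt))
    (e : ev (gJ c) u = ev (gJ c) u') :
    runB c h A u (A.one, 1) = runB c h A u' (A.one, 1) := by
  obtain ⟨ev1, ev2, -⟩ := hV (V ⊕ Wt) (AJ c) inferInstance (gJ c)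
  have act := hA V Wt c hC h A
  have t1 : TJ c (inv u' ++ u) := by
    unfold TJ
    rw [ev1, ev2, e]
    exact inv_mul_cancel _
  have t2 : TJ c (u' ++ inv u') := by
    unfold TJ
    rw [ev1, ev2]
    exact mul_inv_cancel _
  have e1 := act (inv u' ++ u) t1 (runB c h A u' (A.one, 1))
  have e2 := act (u' ++ inv u') t2 (A.one, 1)
  rw [inj_append] at e1 e2
  rw [← inj_append] at e2
  rw [inj_append] at e2
  rw [e2] at e1
  exact e1

include hι hφ hv hv1 in
theorem inj_core (hA : S_ACTB) (h1 : S_SEM1B) (h2 : S_SEM2B) (hR : S_RUNB) (hV : Pool.Agent.H482R3.EA.S_EV)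
    (hC : Cross c) : Function.Injective v ∧ ∀ z : AJ c, ∃ (ω : A.Ω) (g : AR (cW c)),
      z = v ω * ι g := by
  have val : ∀ u : W (V ⊕ Wt), v (runB c h A u (A.one, 1)).1 * ι (runB c h A u (A.one, 1)).2 =
      ev (gJ c) u := by
    intro u
    have e := inj_run c h A φ ι hι hφ v hv u (A.one, 1)
    refine e.trans ?_
    show v A.one * ι 1 * _ = _
    rw [hv1, map_one, one_mul, one_mul]
  constructor
  · intro ω1 ω2 he
    obtain ⟨u1, hu1⟩ := inj_reach c h A h1 h2 hR hC ω1
    obtain ⟨u2, hu2⟩ := inj_reach c h A h1 h2 hR hC ω2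
    have e1 := val u1
    have e2 := val u2
    rw [hu1] at e1
    rw [hu2] at e2
    have e3 : ev (gJ c) u1 = ev (gJ c) u2 := by
      rw [← e1, ← e2]
      show v ω1 * ι 1 = v ω2 * ι 1
      rw [he]
    have e4 := inj_star2 c h A hA hV hC u1 u2 e3
    rw [hu1, hu2] at e4
    exact congrArg Prod.fst e4
  · intro z
    obtain ⟨u, hu⟩ : ∃ u : W (V ⊕ Wt), ev (gJ c) u = z := by
      obtain ⟨f, hf⟩ := PresentedGroup.mk_surjective (relsJ c) z
      obtain ⟨l, rfl⟩ : ∃ l, FreeGroup.mk l = f := Quot.exists_rep f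
      refine ⟨l, ?_⟩
      rw [← hf]
      clear hf
      induction l with
      | nil =>
        show (1 : AJ c) = PresentedGroup.mk (relsJ c) 1
        rw [map_one]
      | cons a l ih =>
        have e2 : (FreeGroup.mk (a :: l) : FreeGroup (V ⊕ Wt)) =
            FreeGroup.mk [a] * FreeGroup.mk l := by
          rw [FreeGroup.mul_mk]
          rfl
        rw [inj_ev_cons, ih, e2, map_mul]
        congr 1
        obtain ⟨s, b⟩ := a
        cases b
        · simp only [Bool.false_eq_true, if_false]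
          have e3 : (FreeGroup.mk [(s, false)] : FreeGroup (V ⊕ Wt)) = (FreeGroup.of s)⁻¹ := by
            rw [FreeGroup.of, FreeGroup.inv_mk]
            rfl
          rw [e3, map_inv]
          rfl
        · simp only [if_true]
          rfl
    refine ⟨(runB c h A u (A.one, 1)).1, (runB c h A u (A.one, 1)).2, ?_⟩
    rw [← hu]
    exact (val u).symm

end

theorem t_INJ (hA : S_ACTB) (h1 : S_SEM1B) (h2 : S_SEM2B) (hR : S_RUNB)
    (hV : Pool.Agent.H482R3.EA.S_EV) : S_INJ := by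
  intro V Wt c hC h A F v hv1 hv
  exact inj_core c h A F.φ F.ι F.hι F.hB v hv1 hv hA h1 h2 hR hV hC

end Pool.Agent.H946R2.EB
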